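import Mathlib
import Pool.Agent.Q180.WT.StmB
import Pool.Agent.W437.HQ.Endo

/-!
# Project WT of helper180: preparations for the jobs UZX and UZ1
-/

set_option autoImplicit false

namespace Pool.Agent.Q121.WT

open Matrix Module Pool.Agent.W437.HC Pool.Agent.W437.HD Pool.Agent.W437.HP Pool.Agent.W437.HQ
open Pool.Agent.Q60.D3 (cast_mulVec)

/-! ## Dual families -/

theorem dual_fam {E : Type*} [AddCommGroup E] [Module ℂ E] [FiniteDimensional ℂ E]
    (B : E →ₗ[ℂ] E →ₗ[ℂ] ℂ) (U V : Submodule ℂ E)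
    (h1 : ∀ x ∈ U, (∀ y ∈ V, B x y = 0) → x = 0) (h2 : ∀ y ∈ V, (∀ x ∈ U, B x y = 0) → y = 0) :
    finrank ℂ U = finrank ℂ V ∧ ∃ (u v : Fin (finrank ℂ U) → E), (∀ k, u k ∈ U) ∧
      (∀ k, v k ∈ V) ∧ ∀ k l, B (u k) (v l) = if k = l then 1 else 0 := by
  classical
  let p : U →ₗ[ℂ] (V →ₗ[ℂ] ℂ) := (V.subtype.dualMap ∘ₗ B) ∘ₗ U.subtype
  have hp : ∀ (x : U) (y : V), p x y = B x y := fun x y => rfl
  let q : V →ₗ[ℂ] (U →ₗ[ℂ] ℂ) := (U.subtype.dualMap ∘ₗ B.flip) ∘ₗ V.subtype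
  have hq : ∀ (x : U) (y : V), q y x = B x y := fun x y => rfl
  have hpi : Function.Injective p := by
    rw [injective_iff_map_eq_zero]
    intro x hx
    apply Subtype.ext
    apply h1 x x.2
    intro y hy
    have := LinearMap.congr_fun hx ⟨y, hy⟩
    rwa [hp] at this
  have hqi : Function.Injective q := by
    rw [injective_iff_map_eq_zero]
    intro y hy
    apply Subtype.ext
    apply h2 y y.2
    intro x hx
    have := LinearMap.congr_fun hy ⟨x, hx⟩
    rwa [hq] at this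
  have e1 : finrank ℂ U ≤ finrank ℂ V := by
    have := LinearMap.finrank_le_finrank_of_injective hpi
    rwa [Subspace.dual_finrank_eq] at this
  have e2 : finrank ℂ V ≤ finrank ℂ U := by
    have := LinearMap.finrank_le_finrank_of_injective hqi
    rwa [Subspace.dual_finrank_eq] at this
  have e3 : finrank ℂ U = finrank ℂ V := le_antisymm e1 e2
  refine ⟨e3, ?_⟩
  let b := finBasis ℂ U
  let T : V →ₗ[ℂ] (Fin (finrank ℂ U) → ℂ) := LinearMap.pi fun k => B (b k : E) ∘ₗ V.subtype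
  have hT : ∀ (y : V) k, T y k = B (b k : E) y := fun y k => rfl
  have hTi : Function.Injective T := by
    rw [injective_iff_map_eq_zero]
    intro y hy
    apply Subtype.ext
    apply h2 y y.2
    intro x hx
    have h3 : (⟨x, hx⟩ : U) = ∑ k, b.repr ⟨x, hx⟩ k • b k := (b.sum_repr _).symm
    have h4 : x = ∑ k, b.repr ⟨x, hx⟩ k • (b k : E) := by
      have h5 := congrArg U.subtype h3
      rw [map_sum] at h5
      simp only [map_smul] at h5
      exact h5
    rw [h4, map_sum, LinearMap.sum_apply]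
    apply Finset.sum_eq_zero
    intro k _
    rw [map_smul, LinearMap.smul_apply]
    have h5 := congrFun hy k
    rw [hT] at h5
    rw [h5]
    simp
  have e4 : finrank ℂ V = finrank ℂ (Fin (finrank ℂ U) → ℂ) := by
    rw [finrank_fin_fun, e3]
  have hTs : Function.Surjective T :=
    (LinearMap.injective_iff_surjective_of_finrank_eq_finrank e4).1 hTi
  choose v hv using fun l => hTs (Pi.single l 1)
  refine ⟨fun k => (b k : E), fun l => (v l : E), fun k => (b k).2, fun l => (v l).2, ?_⟩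
  intro k l
  rw [← hT, hv, Pi.single_apply]

variable {g : ℕ}

/-- the pairing -/
noncomputable def BB (g : ℕ) : (Fin g ⊕ Fin g → ℂ) →ₗ[ℂ] (Fin g ⊕ Fin g → ℂ) →ₗ[ℂ] ℂ :=
  Matrix.toLinearMap₂' ℂ (Om g ℂ)

theorem BB_apply (x y : Fin g ⊕ Fin g → ℂ) : BB g x y = x ⬝ᵥ (Om g ℂ *ᵥ y) :=
  Matrix.toLinearMap₂'_apply' _ _ _

/-- the pairing and adjoint matrices -/
theorem BB_skew {A : Matrix (Fin g ⊕ Fin g) (Fin g ⊕ Fin g) ℂ} (hA : Aᵀ * Om g ℂ = -(Om g ℂ * A))
    (x y : Fin g ⊕ Fin g → ℂ) : BB g (A *ᵥ x) y = -BB g x (A *ᵥ y) := by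
  rw [BB_apply, BB_apply, mulVec_mulVec]
  have h1 : (A *ᵥ x) ⬝ᵥ (Om g ℂ *ᵥ y) = x ⬝ᵥ ((Aᵀ * Om g ℂ) *ᵥ y) := by
    rw [← mulVec_mulVec, dotProduct_mulVec x, vecMul_transpose]
  rw [h1, hA, neg_mulVec, dotProduct_neg]

theorem BB_nd_left {x : Fin g ⊕ Fin g → ℂ} (h : ∀ y, BB g x y = 0) : x = 0 := by
  have h1 : ∀ y, x ⬝ᵥ y = 0 := by
    intro y
    have h2 := h (-(Om g ℂ *ᵥ y))
    rw [BB_apply, mulVec_neg, mulVec_mulVec, Om_sq, neg_mulVec, one_mulVec, neg_neg] at h2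
    exact h2
  exact dotProduct_eq_zero x h1

theorem BB_symm (x y : Fin g ⊕ Fin g → ℂ) : BB g y x = -BB g x y := by
  rw [BB_apply, BB_apply, dotProduct_mulVec, ← mulVec_transpose, Om_transpose, neg_mulVec,
    neg_dotProduct, dotProduct_comm]

theorem BB_nd_right {x : Fin g ⊕ Fin g → ℂ} (h : ∀ y, BB g y x = 0) : x = 0 := by
  apply BB_nd_left
  intro y
  have h1 := h y
  rw [BB_symm, neg_eq_zero] at h1
  exact h1

/-- the common eigenspaces -/
def US (A D : Matrix (Fin g ⊕ Fin g) (Fin g ⊕ Fin g) ℂ) (l e : ℂ) :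
    Submodule ℂ (Fin g ⊕ Fin g → ℂ) where
  carrier := {x | A *ᵥ x = l • x ∧ D *ᵥ x = e • x}
  zero_mem' := by
    constructor
    · rw [mulVec_zero, smul_zero]
    · rw [mulVec_zero, smul_zero]
  add_mem' := by
    rintro x y ⟨h1, h2⟩ ⟨h3, h4⟩
    constructor
    · rw [mulVec_add, h1, h3, smul_add]
    · rw [mulVec_add, h2, h4, smul_add]
  smul_mem' := by
    rintro c x ⟨h1, h2⟩
    constructor
    · rw [mulVec_smul, h1, smul_comm]
    · rw [mulVec_smul, h2, smul_comm]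

theorem mem_US {A D : Matrix (Fin g ⊕ Fin g) (Fin g ⊕ Fin g) ℂ} {l e : ℂ}
    {x : Fin g ⊕ Fin g → ℂ} : x ∈ US A D l e ↔ A *ᵥ x = l • x ∧ D *ᵥ x = e • x := Iff.rfl

section

variable {A D : Matrix (Fin g ⊕ Fin g) (Fin g ⊕ Fin g) ℂ} {l e : ℂ}

/-- the projections -/
theorem proj_mem (hl : l ≠ 0) (hA : A * A = (l * l) • (1 : Matrix (Fin g ⊕ Fin g) (Fin g ⊕ Fin g) ℂ))
    (he : e * e = 1) (hD : D * D = 1) (hAD : A * D = D * A) (y : Fin g ⊕ Fin g → ℂ) :
    (y + e • (D *ᵥ y)) + l⁻¹ • (A *ᵥ (y + e • (D *ᵥ y))) ∈ US A D l e := by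
  have hAA : ∀ z : Fin g ⊕ Fin g → ℂ, A *ᵥ (A *ᵥ z) = (l * l) • z := by
    intro z
    rw [mulVec_mulVec, hA, smul_mulVec, one_mulVec]
  have hDD : ∀ z : Fin g ⊕ Fin g → ℂ, D *ᵥ (D *ᵥ z) = z := by
    intro z
    rw [mulVec_mulVec, hD, one_mulVec]
  have hDA : ∀ z : Fin g ⊕ Fin g → ℂ, D *ᵥ (A *ᵥ z) = A *ᵥ (D *ᵥ z) := by
    intro z
    rw [mulVec_mulVec, mulVec_mulVec, hAD]
  rw [mem_US]
  constructor
  · rw [mulVec_add A (y + e • (D *ᵥ y)), mulVec_smul, hAA, smul_add l, smul_smul, smul_smul]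
    have h1 : l⁻¹ * (l * l) = l := by field_simp
    have h2 : l * l⁻¹ = 1 := mul_inv_cancel₀ hl
    rw [h1, h2, one_smul, add_comm]
  · have h3 : D *ᵥ (y + e • (D *ᵥ y)) = e • (y + e • (D *ᵥ y)) := by
      rw [mulVec_add, mulVec_smul, hDD, smul_add, smul_smul, he, one_smul, add_comm]
    rw [mulVec_add D (y + e • (D *ᵥ y)), mulVec_smul, hDA, h3, mulVec_smul, smul_comm l⁻¹ e,
      ← smul_add]

theorem pair_zero {l' e' : ℂ} (hAs : Aᵀ * Om g ℂ = -(Om g ℂ * A))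
    (hDs : Dᵀ * Om g ℂ = -(Om g ℂ * D)) {x y : Fin g ⊕ Fin g → ℂ} (hx : x ∈ US A D l e)
    (hy : y ∈ US A D l' e') : (l + l') * BB g x y = 0 ∧ (e + e') * BB g x y = 0 := by
  rw [mem_US] at hx hy
  constructor
  · have h1 := BB_skew hAs x y
    rw [hx.1, hy.1, map_smul, LinearMap.smul_apply, map_smul, smul_eq_mul, smul_eq_mul] at h1
    linear_combination h1
  · have h1 := BB_skew hDs x y
    rw [hx.2, hy.2, map_smul, LinearMap.smul_apply, map_smul, smul_eq_mul, smul_eq_mul] at h1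
    linear_combination h1

/-- the pairing between opposite eigenspaces is perfect -/
theorem perfect (hl : l ≠ 0)
    (hA : A * A = (l * l) • (1 : Matrix (Fin g ⊕ Fin g) (Fin g ⊕ Fin g) ℂ))
    (he : e * e = 1) (hD : D * D = 1) (hAD : A * D = D * A)
    (hAs : Aᵀ * Om g ℂ = -(Om g ℂ * A)) (hDs : Dᵀ * Om g ℂ = -(Om g ℂ * D)) :
    finrank ℂ (US A D l e) = finrank ℂ (US A D (-l) (-e)) ∧
    ∃ (u v : Fin (finrank ℂ (US A D l e)) → Fin g ⊕ Fin g → ℂ), (∀ k, u k ∈ US A D l e) ∧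
      (∀ k, v k ∈ US A D (-l) (-e)) ∧ ∀ k j, BB g (u k) (v j) = if k = j then 1 else 0 := by
  -- a vector orthogonal to the opposite eigenspace
  have key : ∀ (l e : ℂ), l ≠ 0 →
      A * A = (l * l) • (1 : Matrix (Fin g ⊕ Fin g) (Fin g ⊕ Fin g) ℂ) → e * e = 1 →
      ∀ x ∈ US A D l e, (∀ y ∈ US A D (-l) (-e), BB g x y = 0) → x = 0 := by
    intro l e hl hA he x hx h
    apply BB_nd_left
    intro y
    have hy := proj_mem (A := A) (D := D) (l := -l) (e := -e) (neg_ne_zero.2 hl)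
      (by rw [neg_mul_neg]; exact hA) (by rw [neg_mul_neg]; exact he) hD hAD y
    have h1 := h _ hy
    rw [mem_US] at hx
    have h2 : ∀ z, BB g x (A *ᵥ z) = -(l * BB g x z) := by
      intro z
      have := BB_skew hAs x z
      rw [hx.1, map_smul, LinearMap.smul_apply, smul_eq_mul] at this
      linear_combination this
    have h3 : ∀ z, BB g x (D *ᵥ z) = -(e * BB g x z) := by
      intro z
      have := BB_skew hDs x z
      rw [hx.2, map_smul, LinearMap.smul_apply, smul_eq_mul] at this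
      linear_combination this
    rw [map_add, map_smul, h2, map_add, map_smul, h3, smul_eq_mul, smul_eq_mul] at h1
    have h4 : (4 : ℂ) * BB g x y = 0 := by
      have h5 : (-l)⁻¹ = -l⁻¹ := inv_neg
      have h6 : l⁻¹ * l = 1 := inv_mul_cancel₀ hl
      rw [h5] at h1
      linear_combination h1 - (BB g x y + e * e * BB g x y) * h6 - 2 * BB g x y * he
    exact (mul_eq_zero.1 h4).resolve_left (by norm_num)
  apply dual_fam (BB g) (US A D l e) (US A D (-l) (-e)) (key l e hl hA he)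
  intro y hy h
  apply key (-l) (-e) (neg_ne_zero.2 hl) (by rw [neg_mul_neg]; exact hA)
    (by rw [neg_mul_neg]; exact he) y hy
  intro x hx
  rw [neg_neg, neg_neg] at hx
  rw [BB_symm, h x hx, neg_zero]

end

end Pool.Agent.Q121.WT
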