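import Mathlib
import Pool.Agent.Q121.WT.Uz0

/-!
# Project WT of helper180: the Rosati involution on an imaginary quadratic field
-/

set_option autoImplicit false

namespace Pool.Agent.Q121.WT

open Matrix Module Pool.Agent.W437.HC Pool.Agent.W437.HD Pool.Agent.W437.HP Pool.Agent.W437.HQ

variable {g : ℕ} {Z : Matrix (Fin g) (Fin g) ℂ}

theorem DZ_skew (hZ : Zᵀ = Z) : (DZ Z)ᵀ * Om g ℂ = -(Om g ℂ * DZ Z) :=
  eq_neg_of_add_eq_zero_left (sp_C hZ _ (D_mem (DZ Z)))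

theorem cK_Om : cK ℂ (Om g ℚ) = Om g ℂ := Om_map ℂ

theorem cK_neg (M : Matrix (Fin g ⊕ Fin g) (Fin g ⊕ Fin g) ℚ) : cK ℂ (-M) = -cK ℂ M := by
  ext i j
  simp [cK]

theorem cK_smul (c : ℚ) (M : Matrix (Fin g ⊕ Fin g) (Fin g ⊕ Fin g) ℚ) :
    cK ℂ (c • M) = (c : ℂ) • cK ℂ M := by
  ext i j
  simp [cK]

theorem cK_add (M N : Matrix (Fin g ⊕ Fin g) (Fin g ⊕ Fin g) ℚ) :
    cK ℂ (M + N) = cK ℂ M + cK ℂ N := by
  ext i j
  simp [cK]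

/-- the adjoint commutes with the Hodge operator -/
theorem adj_com (hZ : Zᵀ = Z) {P : Matrix (Fin g ⊕ Fin g) (Fin g ⊕ Fin g) ℂ}
    (com : P * DZ Z = DZ Z * P) :
    -(Om g ℂ * Pᵀ * Om g ℂ) * DZ Z = DZ Z * -(Om g ℂ * Pᵀ * Om g ℂ) := by
  have hS := DZ_skew hZ
  have hO : Om g ℂ * Om g ℂ = -1 := Om_sq ℂ
  generalize Om g ℂ = O at *
  generalize DZ Z = H at *
  have hOH : O * H = -(Hᵀ * O) := by rw [hS, neg_neg]
  have hOT : O * Hᵀ = -(H * O) := by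
    have e1 : O * Hᵀ = -(O * (Hᵀ * O) * O) := by
      have : O * (Hᵀ * O) * O = O * Hᵀ * (O * O) := by noncomm_ring
      rw [this, hO]
      noncomm_ring
    have e2 : O * (-(O * H)) * O = -((O * O) * H * O) := by noncomm_ring
    rw [e1, hS, e2, hO]
    noncomm_ring
  have hT : Hᵀ * Pᵀ = Pᵀ * Hᵀ := by rw [← transpose_mul, com, transpose_mul]
  have e3 : -(O * Pᵀ * O) * H = -(O * Pᵀ * (O * H)) := by noncomm_ring
  have e4 : -(O * Pᵀ * (-(Hᵀ * O))) = O * (Pᵀ * Hᵀ) * O := by noncomm_ring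
  have e5 : O * (Hᵀ * Pᵀ) * O = (O * Hᵀ) * Pᵀ * O := by noncomm_ring
  rw [e3, hOH, e4, ← hT, e5, hOT]
  noncomm_ring

/-- an endomorphism with negative square is not selfadjoint -/
theorem not_selfadj (hZ : Zᵀ = Z) (hpos : (imM Z).PosDef) (hg : 0 < g)
    (ψ : Matrix (Fin g ⊕ Fin g) (Fin g ⊕ Fin g) ℚ) (D : ℕ)
    (sq : ψ * ψ = -((D : ℚ) • (1 : Matrix (Fin g ⊕ Fin g) (Fin g ⊕ Fin g) ℚ))) (hD : 0 < D)
    (com : cK ℂ ψ * DZ Z = DZ Z * cK ℂ ψ) (h : ψᵀ * Om g ℚ = Om g ℚ * ψ) : False := by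
  set R : Matrix (Fin g ⊕ Fin g) (Fin g ⊕ Fin g) ℝ := cK ℝ ψ with hR
  have hcm : cm R = cK ℂ ψ := by
    ext i j
    simp [cm, hR, cK]
  have hRJ : R * JR Z = JR Z * R := by
    rw [← hcm] at com
    have h1 : DZ Z = (-Complex.I) • cm (JR Z) := rfl
    rw [h1, mul_smul_comm, smul_mul_assoc, ← cm_mul, ← cm_mul] at com
    have h2 : cm (R * JR Z) = cm (JR Z * R) := by
      have h3 : (-Complex.I) ≠ 0 := neg_ne_zero.2 Complex.I_ne_zero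
      exact smul_right_injective _ h3 com
    ext i j
    have h3 := congrFun (congrFun h2 i) j
    simp only [cm, Matrix.map_apply] at h3
    exact_mod_cast h3
  have hRR : R * R = -((D : ℝ) • (1 : Matrix (Fin g ⊕ Fin g) (Fin g ⊕ Fin g) ℝ)) := by
    rw [hR, ← cK_mul, sq]
    ext i j
    by_cases hij : i = j
    · subst hij
      simp [cK]
    · simp [cK, hij]
  have hOmR : cK ℝ (Om g ℚ) = Om g ℝ := Om_map ℝ
  have hRO : Rᵀ * Om g ℝ = Om g ℝ * R := by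
    rw [hR, ← cK_transpose, ← hOmR, ← cK_mul, ← cK_mul, h]
  have hH := OmJ_posDef hZ hpos
  have hx0 : (Pi.single (Sum.inl ⟨0, hg⟩) 1 : Fin g ⊕ Fin g → ℝ) ≠ 0 := by
    intro h0
    have := congrFun h0 (Sum.inl ⟨0, hg⟩)
    simp at this
  obtain ⟨x, hx⟩ : ∃ x : Fin g ⊕ Fin g → ℝ, x = Pi.single (Sum.inl ⟨0, hg⟩) 1 := ⟨_, rfl⟩
  rw [← hx] at hx0
  have h1 := hH.dotProduct_mulVec_pos hx0
  rw [star_trivial] at h1
  have h2 : 0 ≤ (R *ᵥ x) ⬝ᵥ ((Om g ℝ * JR Z) *ᵥ (R *ᵥ x)) := by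
    by_cases hy : R *ᵥ x = 0
    · rw [hy]
      simp
    · have := hH.dotProduct_mulVec_pos hy
      rw [star_trivial] at this
      exact this.le
  have h3 : (R *ᵥ x) ⬝ᵥ ((Om g ℝ * JR Z) *ᵥ (R *ᵥ x)) =
      x ⬝ᵥ ((Rᵀ * (Om g ℝ * JR Z) * R) *ᵥ x) := by
    have hh : ∀ w, (R *ᵥ x) ⬝ᵥ w = x ⬝ᵥ (Rᵀ *ᵥ w) := by
      intro w
      rw [dotProduct_mulVec x, vecMul_transpose]
    rw [hh, mulVec_mulVec, mulVec_mulVec]
  have h4 : Rᵀ * (Om g ℝ * JR Z) * R = -((D : ℝ) • (Om g ℝ * JR Z)) := by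
    have e1 : Rᵀ * (Om g ℝ * JR Z) * R = (Rᵀ * Om g ℝ) * (JR Z * R) := by noncomm_ring
    rw [e1, hRO, ← hRJ]
    have e2 : Om g ℝ * R * (R * JR Z) = Om g ℝ * (R * R) * JR Z := by noncomm_ring
    rw [e2, hRR, mul_neg, neg_mul, mul_smul_comm, mul_one, smul_mul_assoc]
  rw [h3, h4, neg_mulVec, smul_mulVec, dotProduct_neg, dotProduct_smul, smul_eq_mul] at h2
  have hD' : (0 : ℝ) < D := by exact_mod_cast hD
  have := mul_pos hD' h1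
  linarith

theorem skew_of (hZ : Zᵀ = Z) (hpos : (imM Z).PosDef)
    (ψ : Matrix (Fin g ⊕ Fin g) (Fin g ⊕ Fin g) ℚ) (D : ℕ) (hD : 0 < D)
    (sq : ψ * ψ = -((D : ℚ) • (1 : Matrix (Fin g ⊕ Fin g) (Fin g ⊕ Fin g) ℚ)))
    (com : cK ℂ ψ * DZ Z = DZ Z * cK ℂ ψ)
    (gen : ∀ χ : Matrix (Fin g ⊕ Fin g) (Fin g ⊕ Fin g) ℚ, cK ℂ χ * DZ Z = DZ Z * cK ℂ χ →
      ∃ a b : ℚ, χ = a • (1 : Matrix (Fin g ⊕ Fin g) (Fin g ⊕ Fin g) ℚ) + b • ψ) :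
    ψᵀ * Om g ℚ = -(Om g ℚ * ψ) := by
  rcases Nat.eq_zero_or_pos g with rfl | hg
  · ext i
    rcases i with i | i <;> exact i.elim0
  have hD' : (0 : ℚ) < D := by exact_mod_cast hD
  have hO : Om g ℚ * Om g ℚ = -1 := Om_sq ℚ
  have hcom : cK ℂ (-(Om g ℚ * ψᵀ * Om g ℚ)) * DZ Z = DZ Z * cK ℂ (-(Om g ℚ * ψᵀ * Om g ℚ)) := by
    rw [cK_neg, cK_mul, cK_mul, cK_transpose, cK_Om]
    exact adj_com hZ com
  obtain ⟨a, b, hab⟩ := gen _ hcom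
  have hRR : (-(Om g ℚ * ψᵀ * Om g ℚ)) * (-(Om g ℚ * ψᵀ * Om g ℚ)) =
      -((D : ℚ) • (1 : Matrix (Fin g ⊕ Fin g) (Fin g ⊕ Fin g) ℚ)) := by
    have e1 : (-(Om g ℚ * ψᵀ * Om g ℚ)) * (-(Om g ℚ * ψᵀ * Om g ℚ)) =
        Om g ℚ * ψᵀ * (Om g ℚ * Om g ℚ) * ψᵀ * Om g ℚ := by noncomm_ring
    have e2 : Om g ℚ * ψᵀ * (-1) * ψᵀ * Om g ℚ = -(Om g ℚ * (ψᵀ * ψᵀ) * Om g ℚ) := by noncomm_ring
    rw [e1, hO, e2, ← transpose_mul, sq, transpose_neg, transpose_smul, transpose_one, mul_neg,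
      neg_mul, mul_smul_comm, mul_one, smul_mul_assoc, hO, smul_neg]
    simp
  rw [hab] at hRR
  have hexp : (a • (1 : Matrix (Fin g ⊕ Fin g) (Fin g ⊕ Fin g) ℚ) + b • ψ) *
      (a • (1 : Matrix (Fin g ⊕ Fin g) (Fin g ⊕ Fin g) ℚ) + b • ψ) =
      (a ^ 2 - b ^ 2 * D) • (1 : Matrix (Fin g ⊕ Fin g) (Fin g ⊕ Fin g) ℚ) + (2 * a * b) • ψ := by
    have e1 : (a • (1 : Matrix (Fin g ⊕ Fin g) (Fin g ⊕ Fin g) ℚ) + b • ψ) *
        (a • (1 : Matrix (Fin g ⊕ Fin g) (Fin g ⊕ Fin g) ℚ) + b • ψ) =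
        (a ^ 2) • (1 : Matrix (Fin g ⊕ Fin g) (Fin g ⊕ Fin g) ℚ) + (2 * a * b) • ψ +
          (b ^ 2) • (ψ * ψ) := by
      simp only [add_mul, mul_add, smul_mul_assoc, mul_smul_comm, one_mul, mul_one, smul_add,
        smul_smul]
      have e3 : (2 * a * b) • ψ = (a * b) • ψ + (b * a) • ψ := by
        rw [← add_smul]
        congr 1
        ring
      rw [e3, pow_two, pow_two]
      abel
    rw [e1, sq, smul_neg, smul_smul, sub_smul]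
    abel
  rw [hexp] at hRR
  have hlin : (a ^ 2 - b ^ 2 * D + D) • (1 : Matrix (Fin g ⊕ Fin g) (Fin g ⊕ Fin g) ℚ) +
      (2 * a * b) • ψ = 0 := by
    rw [add_smul, add_right_comm, hRR, neg_add_cancel]
  have hent : ∀ c : ℚ, (c • (1 : Matrix (Fin g ⊕ Fin g) (Fin g ⊕ Fin g) ℚ))
      (Sum.inl ⟨0, hg⟩) (Sum.inl ⟨0, hg⟩) = c := by
    intro c
    simp
  have hab0 : a * b = 0 := by
    by_contra hne
    have h2 : 2 * a * b ≠ 0 := by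
      intro h0
      apply hne
      linarith
    have hψ : ψ = (-(a ^ 2 - b ^ 2 * D + D) / (2 * a * b)) •
        (1 : Matrix (Fin g ⊕ Fin g) (Fin g ⊕ Fin g) ℚ) := by
      have h3 : (2 * a * b) • ψ = (-(a ^ 2 - b ^ 2 * D + D)) •
          (1 : Matrix (Fin g ⊕ Fin g) (Fin g ⊕ Fin g) ℚ) := by
        rw [neg_smul]
        exact eq_neg_of_add_eq_zero_right hlin
      have h4 : ψ = (2 * a * b)⁻¹ • ((2 * a * b) • ψ) := by
        rw [smul_smul, inv_mul_cancel₀ h2, one_smul]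
      rw [h4, h3, smul_smul]
      congr 1
      rw [mul_comm, ← div_eq_mul_inv]
    obtain ⟨c, hc⟩ : ∃ c : ℚ, c = -(a ^ 2 - b ^ 2 * D + D) / (2 * a * b) := ⟨_, rfl⟩
    rw [← hc] at hψ
    have h5 := congrFun (congrFun sq (Sum.inl ⟨0, hg⟩)) (Sum.inl ⟨0, hg⟩)
    rw [hψ, smul_mul_smul_comm, one_mul, hent, Matrix.neg_apply, hent] at h5
    nlinarith [mul_self_nonneg c]
  have h2ab : 2 * a * b = 0 := by linarith
  rw [h2ab, zero_smul, add_zero] at hlin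
  have h6 := congrFun (congrFun hlin (Sum.inl ⟨0, hg⟩)) (Sum.inl ⟨0, hg⟩)
  rw [hent, Matrix.zero_apply] at h6
  rcases mul_eq_zero.1 hab0 with ha | hb
  · subst ha
    have h7 : (b - 1) * (b + 1) = 0 := by
      have : (D : ℚ) * ((b - 1) * (b + 1)) = 0 := by linear_combination -h6
      exact (mul_eq_zero.1 this).resolve_left hD'.ne'
    rcases mul_eq_zero.1 h7 with h8 | h8
    · have hb1 : b = 1 := by linarith
      subst hb1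
      exfalso
      apply not_selfadj hZ hpos hg ψ D sq hD com
      rw [zero_smul, zero_add, one_smul] at hab
      have h9 : Om g ℚ * (-(Om g ℚ * ψᵀ * Om g ℚ)) = -((Om g ℚ * Om g ℚ) * (ψᵀ * Om g ℚ)) := by
        noncomm_ring
      rw [hab, hO] at h9
      rw [h9]
      noncomm_ring
    · have hb1 : b = -1 := by linarith
      subst hb1
      rw [zero_smul, zero_add, neg_one_smul] at hab
      have h9 : Om g ℚ * (-(Om g ℚ * ψᵀ * Om g ℚ)) = -((Om g ℚ * Om g ℚ) * (ψᵀ * Om g ℚ)) := by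
        noncomm_ring
      rw [hab, hO] at h9
      have h10 : ψᵀ * Om g ℚ = -(-1 * (ψᵀ * Om g ℚ)) := by noncomm_ring
      rw [h10, ← h9]
      noncomm_ring
  · subst hb
    exfalso
    nlinarith [sq_nonneg a]

end Pool.Agent.Q121.WT
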