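import Mathlib
import Pool.Agent.Q121.WT.Uz1
import Pool.Agent.Q180.D3.CMOne

/-!
# Project WT of helper180: JOB UZ1
-/

set_option autoImplicit false

namespace Pool.Agent.Q121.WT

open Matrix Module Pool.Agent.W437.HC Pool.Agent.W437.HD Pool.Agent.W437.HP Pool.Agent.W437.HQ
  Pool.Agent.Q180.WT
open Pool.Agent.Q60.D3 (Comm KZ)
open Pool.Agent.Q180.D3 (M2 M2_mul M2_map M2_mulVec M2_inj DZ_one cm1)

theorem M2_eta {F : Type*} (M : Matrix (Fin 1 ⊕ Fin 1) (Fin 1 ⊕ Fin 1) F) :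
    M = M2 (M (Sum.inl 0) (Sum.inl 0)) (M (Sum.inl 0) (Sum.inr 0)) (M (Sum.inr 0) (Sum.inl 0))
      (M (Sum.inr 0) (Sum.inr 0)) := by
  ext i j
  rcases i with i | i <;> rcases j with j | j <;> fin_cases i <;> fin_cases j <;> rfl

theorem M2_lin {F : Type*} [Field F] (a b x y z w : F) :
    a • (1 : Matrix (Fin 1 ⊕ Fin 1) (Fin 1 ⊕ Fin 1) F) + b • M2 x y z w =
      M2 (a + b * x) (b * y) (b * z) (a + b * w) := by
  ext i j
  rcases i with i | i <;> rcases j with j | j <;> fin_cases i <;> fin_cases j <;> simp [M2]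

theorem comm2 {F : Type*} [Field F] (M N : Matrix (Fin 1 ⊕ Fin 1) (Fin 1 ⊕ Fin 1) F)
    (h : M * N = N * M) (hN : N (Sum.inr 0) (Sum.inl 0) ≠ 0) :
    ∃ a b : F, M = a • (1 : Matrix (Fin 1 ⊕ Fin 1) (Fin 1 ⊕ Fin 1) F) + b • N := by
  rw [M2_eta M, M2_eta N] at h ⊢
  generalize M (Sum.inl 0) (Sum.inl 0) = m1 at *
  generalize M (Sum.inl 0) (Sum.inr 0) = m2 at *
  generalize M (Sum.inr 0) (Sum.inl 0) = m3 at *
  generalize M (Sum.inr 0) (Sum.inr 0) = m4 at *
  generalize N (Sum.inl 0) (Sum.inl 0) = n1 at *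
  generalize N (Sum.inl 0) (Sum.inr 0) = n2 at *
  generalize N (Sum.inr 0) (Sum.inl 0) = n3 at *
  generalize N (Sum.inr 0) (Sum.inr 0) = n4 at *
  rw [M2_mul, M2_mul] at h
  obtain ⟨h1, h2, h3, h4⟩ := M2_inj h
  refine ⟨m1 - m3 / n3 * n1, m3 / n3, ?_⟩
  rw [M2_lin]
  congr 1
  · ring
  · field_simp
    linear_combination h1
  · field_simp
  · field_simp
    linear_combination h3

/-- JOB UZ1. -/
theorem uz1 : S_uz1 := by
  intro Z hpos hC
  obtain ⟨K⟩ := cm1 Z hpos hC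
  have hy0 : 0 < (Z 0 0).im := by
    have h := hpos.diag_pos (i := 0)
    simpa using h
  have hD10 : DZ Z (Sum.inr 0) (Sum.inl 0) ≠ 0 := by
    rw [DZ_one Z hy0.ne']
    change -Complex.I * (1 / ((Z 0 0).im : ℂ)) ≠ 0
    have : ((Z 0 0).im : ℂ) ≠ 0 := by exact_mod_cast hy0.ne'
    exact mul_ne_zero (neg_ne_zero.2 Complex.I_ne_zero) (one_div_ne_zero this)
  have hd : (0 : ℚ) < K.d := by
    have : 0 < K.d := Nat.pos_of_ne_zero K.hd.ne_zero
    exact_mod_cast this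
  have hφ10 : K.φ (Sum.inr 0) (Sum.inl 0) ≠ 0 := by
    intro h0
    have h1 := congrFun (congrFun K.sq (Sum.inr 0)) (Sum.inr 0)
    rw [Matrix.mul_apply, Fintype.sum_sum_type] at h1
    simp only [Finset.univ_unique, Fin.default_eq_zero, Finset.sum_singleton, h0, zero_mul,
      zero_add, Matrix.neg_apply, Matrix.smul_apply, Matrix.one_apply_eq, smul_eq_mul,
      mul_one] at h1
    nlinarith [mul_self_nonneg (K.φ (Sum.inr 0) (Sum.inr 0))]
  refine ⟨{
    φ := K.φ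
    d := K.d
    hd := K.hd
    sq := K.sq
    com := K.com
    skew := K.skew
    gen := ?_
    μ := K.μ
    hμ := K.hμ
    u := K.u
    v := K.v
    hu := K.hu
    hv := K.hv
    dual := K.dual
    ep := fun _ => 1
    hep := fun _ => Or.inl rfl
    hDu := ?_
    hDv := ?_ }, ?_, ?_⟩
  · intro ψ hψ
    obtain ⟨a, b, h1⟩ := comm2 _ _ hψ hD10
    obtain ⟨a', b', h2⟩ := comm2 _ _ K.com hD10
    have h3 : cq (ψ * K.φ) = cq (K.φ * ψ) := by
      rw [cq_mul, cq_mul]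
      have e1 : cq ψ = cK ℂ ψ := rfl
      have e2 : cq K.φ = cK ℂ K.φ := rfl
      rw [e1, e2, h1, h2]
      simp only [add_mul, mul_add, smul_mul_assoc, mul_smul_comm, one_mul, mul_one, smul_add,
        smul_smul, mul_comm]
      abel
    exact comm2 _ _ (cq_inj h3) hφ10
  · intro k
    have h1 := K.hDu k
    have h2 : (k : ℕ) ≠ 2 := by have := k.2; omega
    rw [if_neg h2] at h1
    simpa using h1
  · intro k
    have h1 := K.hDv k
    have h2 : (k : ℕ) ≠ 2 := by have := k.2; omega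
    rw [if_neg h2] at h1
    simpa using h1
  · unfold UZ.pos
    simp
  · unfold UZ.neg
    simp

end Pool.Agent.Q121.WT
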