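import Mathlib
import Pool.Agent.Q121.WT.Uz1

/-!
# Project WT of helper180: JOB UZX
-/

set_option autoImplicit false

namespace Pool.Agent.Q121.WT

open Matrix Module Pool.Agent.W437.HC Pool.Agent.W437.HD Pool.Agent.W437.HP Pool.Agent.W437.HQ
  Pool.Agent.Q180.WT
open Pool.Agent.Q60.D3 (AV IsHom cast_mulVec)

variable {g : ℕ} {Z : Matrix (Fin g) (Fin g) ℂ}

/-- vectors killed by the period matrix -/
theorem DZ_of_PZ_vec (hY : IsUnit (imM Z).det) {x : Fin g ⊕ Fin g → ℂ} (h : PZ Z *ᵥ x = 0) :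
    DZ Z *ᵥ x = -x := by
  have h1 : x = LM Z *ᵥ (KK g *ᵥ x) := by
    conv_lhs => rw [← one_mulVec x, one_eq (Z := Z), add_mulVec, ← mulVec_mulVec, h, mulVec_zero,
      zero_add, ← mulVec_mulVec]
  rw [h1, mulVec_mulVec, DZ_LM hY, neg_mulVec]

/-- The data coming from an abelian variety. -/
structure Dat (A : AV) (Z : Matrix (Fin g) (Fin g) ℂ) where
  e : A.H ≃ₗ[ℚ] (Fin g ⊕ Fin g → ℚ)
  C : A.T ≃ₗ[ℂ] (Fin g → ℂ)
  hC : ∀ w, C (A.per w) = perOne Z (e w)

namespace Dat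

variable {A : AV} (S : Dat A Z)

/-- the matrix of an endomorphism of the rational homology -/
noncomputable def mat (φ : A.H →ₗ[ℚ] A.H) : Matrix (Fin g ⊕ Fin g) (Fin g ⊕ Fin g) ℚ :=
  LinearMap.toMatrix' (S.e.toLinearMap ∘ₗ φ ∘ₗ S.e.symm.toLinearMap)

theorem mat_mulVec (φ : A.H →ₗ[ℚ] A.H) (w : Fin g ⊕ Fin g → ℚ) :
    S.mat φ *ᵥ w = S.e (φ (S.e.symm w)) := by
  have h := Matrix.toLin'_toMatrix' (S.e.toLinearMap ∘ₗ φ ∘ₗ S.e.symm.toLinearMap)
  have h2 := LinearMap.congr_fun h w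
  rw [Matrix.toLin'_apply] at h2
  exact h2

/-- the matrix of an endomorphism of the tangent space -/
noncomputable def tmat (D : A.T →ₗ[ℂ] A.T) : Matrix (Fin g) (Fin g) ℂ :=
  LinearMap.toMatrix' (S.C.toLinearMap ∘ₗ D ∘ₗ S.C.symm.toLinearMap)

theorem tmat_mulVec (D : A.T →ₗ[ℂ] A.T) (w : Fin g → ℂ) :
    S.tmat D *ᵥ w = S.C (D (S.C.symm w)) := by
  have h := Matrix.toLin'_toMatrix' (S.C.toLinearMap ∘ₗ D ∘ₗ S.C.symm.toLinearMap)
  have h2 := LinearMap.congr_fun h w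
  rw [Matrix.toLin'_apply] at h2
  exact h2

theorem isEndo {φ : A.H →ₗ[ℚ] A.H} {D : A.T →ₗ[ℂ] A.T} (h : ∀ w, D (A.per w) = A.per (φ w)) :
    IsEndo Z (S.mat φ) (S.tmat D) := by
  intro w
  rw [mat_mulVec, tmat_mulVec, ← S.hC, ← h]
  congr 1
  have h1 : S.C.symm (perOne Z w) = A.per (S.e.symm w) := by
    rw [LinearEquiv.symm_apply_eq, S.hC, LinearEquiv.apply_symm_apply]
  rw [h1]

/-- a rational matrix commuting with the Hodge operator comes from a homomorphism -/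
theorem hom_of (hY : IsUnit (imM Z).det) {ψ : Matrix (Fin g ⊕ Fin g) (Fin g ⊕ Fin g) ℚ}
    (h : cK ℂ ψ * DZ Z = DZ Z * cK ℂ ψ) :
    ∃ χ : A.H →ₗ[ℚ] A.H, IsHom A A χ ∧ S.mat χ = ψ := by
  have h1 := endo_of_comm hY h
  refine ⟨S.e.symm.toLinearMap ∘ₗ (Matrix.mulVecLin ψ) ∘ₗ S.e.toLinearMap,
    ⟨S.C.symm.toLinearMap ∘ₗ (Matrix.mulVecLin (PZ Z * cq ψ * r10 g)) ∘ₗ S.C.toLinearMap,
      fun w => ?_⟩, ?_⟩
  · change S.C.symm ((PZ Z * cq ψ * r10 g) *ᵥ (S.C (A.per w))) = A.per (S.e.symm (ψ *ᵥ (S.e w)))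
    rw [LinearEquiv.symm_apply_eq, S.hC, S.hC, LinearEquiv.apply_symm_apply]
    exact (h1 (S.e w)).symm
  · unfold mat
    have h2 : S.e.toLinearMap ∘ₗ (S.e.symm.toLinearMap ∘ₗ (Matrix.mulVecLin ψ) ∘ₗ
        S.e.toLinearMap) ∘ₗ S.e.symm.toLinearMap = Matrix.mulVecLin ψ := by
      ext w
      simp
    rw [h2, ← Matrix.toLin'_apply', LinearMap.toMatrix'_toLin']

end Dat

/-- the dimension of the eigenspaces: comparison with the tangent space -/
theorem finrank_US {A : AV} (S : Dat A Z) (hY : IsUnit (imM Z).det) {φ : A.H →ₗ[ℚ] A.H}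
    {D : A.T →ₗ[ℂ] A.T} (h : ∀ w, D (A.per w) = A.per (φ w))
    {P : Matrix (Fin g ⊕ Fin g) (Fin g ⊕ Fin g) ℂ} {m l : ℂ} (hm : m ≠ 0) (hl : l ≠ 0)
    (hP : cq (S.mat φ) = m • P)
    (hPP : P * P = (l * l) • (1 : Matrix (Fin g ⊕ Fin g) (Fin g ⊕ Fin g) ℂ))
    (hPD : P * DZ Z = DZ Z * P) :
    finrank ℂ (US P (DZ Z) l 1) =
      finrank ℂ (LinearMap.ker (D - (m * l) • (LinearMap.id : A.T →ₗ[ℂ] A.T))) := by
  have hE := endo_PZ (S.isEndo h)
  -- the period matrix and the operator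
  have hPZ : ∀ x, PZ Z *ᵥ (P *ᵥ x) = m⁻¹ • S.C (D (S.C.symm (PZ Z *ᵥ x))) := by
    intro x
    rw [← S.tmat_mulVec, mulVec_mulVec (PZ Z *ᵥ x |> fun _ => x) (S.tmat D) (PZ Z), ← hE, hP,
      Matrix.mul_smul, smul_mulVec, smul_smul, inv_mul_cancel₀ hm, one_smul, mulVec_mulVec]
  let f0 : US P (DZ Z) l 1 →ₗ[ℂ] A.T :=
    (S.C.symm.toLinearMap ∘ₗ Matrix.mulVecLin (PZ Z)) ∘ₗ (US P (DZ Z) l 1).subtype
  have hf0 : ∀ x : US P (DZ Z) l 1, f0 x = S.C.symm (PZ Z *ᵥ (x : Fin g ⊕ Fin g → ℂ)) :=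
    fun x => rfl
  have hmem : ∀ x : US P (DZ Z) l 1, f0 x ∈
      LinearMap.ker (D - (m * l) • (LinearMap.id : A.T →ₗ[ℂ] A.T)) := by
    intro x
    rw [LinearMap.mem_ker, LinearMap.sub_apply, LinearMap.smul_apply, LinearMap.id_apply, hf0,
      sub_eq_zero]
    have h1 := hPZ x
    rw [(mem_US.1 x.2).1, mulVec_smul] at h1
    have h2 : S.C (D (S.C.symm (PZ Z *ᵥ (x : Fin g ⊕ Fin g → ℂ)))) =
        (m * l) • (PZ Z *ᵥ (x : Fin g ⊕ Fin g → ℂ)) := by
      have h3 := congrArg (fun z => m • z) h1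
      simp only [smul_smul, mul_inv_cancel₀ hm, one_smul] at h3
      exact h3.symm
    apply S.C.injective
    rw [h2, map_smul, LinearEquiv.apply_symm_apply]
  let f : US P (DZ Z) l 1 →ₗ[ℂ]
      LinearMap.ker (D - (m * l) • (LinearMap.id : A.T →ₗ[ℂ] A.T)) :=
    LinearMap.codRestrict _ f0 hmem
  have hfi : Function.Injective f := by
    rw [injective_iff_map_eq_zero]
    intro x hx
    have h1 : f0 x = 0 := congrArg Subtype.val hx
    rw [hf0, LinearEquiv.map_eq_zero_iff] at h1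
    have h2 := DZ_of_PZ_vec hY h1
    rw [(mem_US.1 x.2).2, one_smul] at h2
    apply Subtype.ext
    have h3 : (2 : ℂ) • (x : Fin g ⊕ Fin g → ℂ) = 0 := by
      rw [two_smul]
      nth_rewrite 1 [h2]
      rw [neg_add_cancel]
    exact (smul_eq_zero.1 h3).resolve_left two_ne_zero
  have hfs : Function.Surjective f := by
    intro t
    have ht := t.2
    rw [LinearMap.mem_ker, LinearMap.sub_apply, LinearMap.smul_apply, LinearMap.id_apply,
      sub_eq_zero] at ht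
    set y : Fin g ⊕ Fin g → ℂ := r10 g *ᵥ (S.C (t : A.T)) with hy
    have hy1 : PZ Z *ᵥ y = S.C (t : A.T) := by
      rw [hy, mulVec_mulVec, PZ_r10, one_mulVec]
    have hx := proj_mem (A := P) (D := DZ Z) (l := l) (e := 1) hl hPP (one_mul 1) (DZ_sq hY) hPD y
    set x := (y + (1 : ℂ) • (DZ Z *ᵥ y)) + l⁻¹ • (P *ᵥ (y + (1 : ℂ) • (DZ Z *ᵥ y))) with hxd
    have hz : PZ Z *ᵥ (y + (1 : ℂ) • (DZ Z *ᵥ y)) = (2 : ℂ) • S.C (t : A.T) := by
      have e1 : PZ Z *ᵥ (DZ Z *ᵥ y) = PZ Z *ᵥ y := by rw [mulVec_mulVec, PZ_DZ hY]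
      rw [one_smul, mulVec_add, e1, hy1, two_smul]
    have hx1 : PZ Z *ᵥ x = (4 : ℂ) • S.C (t : A.T) := by
      rw [hxd, mulVec_add, mulVec_smul, hPZ, hz, map_smul, LinearEquiv.symm_apply_apply, map_smul,
        ht, map_smul, map_smul, smul_smul, smul_smul, smul_smul, ← add_smul]
      congr 1
      field_simp
      norm_num
    refine ⟨⟨(4 : ℂ)⁻¹ • x, Submodule.smul_mem _ _ hx⟩, ?_⟩
    apply Subtype.ext
    change S.C.symm (PZ Z *ᵥ ((4 : ℂ)⁻¹ • x)) = (t : A.T)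
    rw [mulVec_smul, hx1, smul_smul, inv_mul_cancel₀ (by norm_num), one_smul,
      LinearEquiv.symm_apply_apply]
  exact (LinearEquiv.ofBijective f ⟨hfi, hfs⟩).finrank_eq

/-- the dimensions of the eigenspaces of an operator with two eigenvalues -/
theorem finrank_two {T : Type} [AddCommGroup T] [Module ℂ T] [FiniteDimensional ℂ T]
    (D : T →ₗ[ℂ] T) (a : ℂ) (ha : a ≠ 0) (h : ∀ t, D (D t) = (a * a) • t) :
    finrank ℂ (LinearMap.ker (D - a • (LinearMap.id : T →ₗ[ℂ] T))) +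
      finrank ℂ (LinearMap.ker (D + a • (LinearMap.id : T →ₗ[ℂ] T))) = finrank ℂ T := by
  have h1 : LinearMap.range (D + a • (LinearMap.id : T →ₗ[ℂ] T)) =
      LinearMap.ker (D - a • (LinearMap.id : T →ₗ[ℂ] T)) := by
    ext x
    rw [LinearMap.mem_range, LinearMap.mem_ker]
    constructor
    · rintro ⟨y, rfl⟩
      rw [LinearMap.sub_apply, LinearMap.smul_apply, LinearMap.id_apply, LinearMap.add_apply,
        LinearMap.smul_apply, LinearMap.id_apply, map_add, map_smul, h, smul_add, smul_smul]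
      abel
    · intro hx
      rw [LinearMap.sub_apply, LinearMap.smul_apply, LinearMap.id_apply, sub_eq_zero] at hx
      refine ⟨(2 * a)⁻¹ • x, ?_⟩
      rw [LinearMap.add_apply, LinearMap.smul_apply, LinearMap.id_apply, map_smul, hx, smul_smul,
        smul_smul, ← add_smul]
      have : (2 * a)⁻¹ * a + a * (2 * a)⁻¹ = 1 := by field_simp; norm_num
      rw [this, one_smul]
  rw [← h1]
  exact LinearMap.finrank_range_add_finrank_ker _

/-- JOB UZX. -/
theorem uzx : S_uzx := by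
  intro A g Z e C hZ hpos hC p q hsig
  obtain ⟨d, φ, D, hd0, hD, hφφ, hgen, hp, hq⟩ := hsig
  have hY : IsUnit (imM Z).det := hpos.isUnit.map Matrix.detMonoidHom
  let S : Dat A Z := ⟨e, C, hC⟩
  obtain ⟨d', m, hmd, hsf⟩ := Nat.sq_mul_squarefree d
  have hm0 : m ≠ 0 := by
    rintro rfl
    simp at hmd
    omega
  have hd'0 : 0 < d' := Nat.pos_of_ne_zero hsf.ne_zero
  have hmQ : (m : ℚ) ≠ 0 := by exact_mod_cast hm0
  have hmC : (m : ℂ) ≠ 0 := by exact_mod_cast hm0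
  -- the matrix
  set ψ := S.mat φ with hψ
  have hψψ : ψ * ψ = -((d : ℚ) • (1 : Matrix (Fin g ⊕ Fin g) (Fin g ⊕ Fin g) ℚ)) := by
    apply Matrix.toLin'.injective
    apply LinearMap.ext
    intro w
    rw [Matrix.toLin'_apply, Matrix.toLin'_apply, ← mulVec_mulVec, hψ, S.mat_mulVec, S.mat_mulVec,
      LinearEquiv.symm_apply_apply, hφφ, map_neg, map_smul, LinearEquiv.apply_symm_apply,
      neg_mulVec, smul_mulVec, one_mulVec]
  have hEnd := S.isEndo hD
  have hcomψ : cq ψ * DZ Z = DZ Z * cq ψ := endo_comm hY hEnd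
  -- the normalized endomorphism
  obtain ⟨φ', hφ'⟩ : ∃ φ', φ' = (m : ℚ)⁻¹ • ψ := ⟨_, rfl⟩
  have hψφ' : ψ = (m : ℚ) • φ' := by
    rw [hφ', smul_smul, mul_inv_cancel₀ hmQ, one_smul]
  have hsq : φ' * φ' = -((d' : ℚ) • (1 : Matrix (Fin g ⊕ Fin g) (Fin g ⊕ Fin g) ℚ)) := by
    rw [hφ', smul_mul_smul_comm, hψψ, smul_neg, smul_smul]
    congr 2
    rw [← hmd]
    push_cast
    field_simp
  obtain ⟨P, hPdef⟩ : ∃ P, P = cK ℂ φ' := ⟨_, rfl⟩
  have hP : cq (S.mat φ) = (m : ℂ) • P := by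
    have h1 : cq (S.mat φ) = cK ℂ ψ := rfl
    rw [h1, hψφ', cK_smul, hPdef]
    push_cast
    rfl
  have hcom : P * DZ Z = DZ Z * P := by
    have h1 : cq ψ = (m : ℂ) • P := hP
    rw [h1, smul_mul_assoc, mul_smul_comm] at hcomψ
    exact smul_right_injective _ hmC hcomψ
  have hgen' : ∀ χ : Matrix (Fin g ⊕ Fin g) (Fin g ⊕ Fin g) ℚ,
      cK ℂ χ * DZ Z = DZ Z * cK ℂ χ →
      ∃ a b : ℚ, χ = a • (1 : Matrix (Fin g ⊕ Fin g) (Fin g ⊕ Fin g) ℚ) + b • φ' := by
    intro χ hχ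
    obtain ⟨χ', h1, h2⟩ := S.hom_of hY hχ
    obtain ⟨a, b, hab⟩ := hgen χ' h1
    refine ⟨a, b * m, ?_⟩
    rw [mul_smul, ← hψφ', ← h2]
    apply Matrix.toLin'.injective
    apply LinearMap.ext
    intro w
    rw [Matrix.toLin'_apply, Matrix.toLin'_apply, S.mat_mulVec, hab, map_add, map_smul, map_smul,
      LinearEquiv.apply_symm_apply, add_mulVec, smul_mulVec, smul_mulVec, one_mulVec, hψ,
      S.mat_mulVec]
  have hcomK : cK ℂ φ' * DZ Z = DZ Z * cK ℂ φ' := by rw [← hPdef]; exact hcom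
  have hskew := skew_of hZ hpos φ' d' hd'0 hsq hcomK hgen'
  have hskewC : Pᵀ * Om g ℂ = -(Om g ℂ * P) := by
    rw [hPdef, ← cK_transpose, ← cK_Om, ← cK_mul, ← cK_mul, hskew, cK_neg]
  -- the eigenvalue
  obtain ⟨a, ha⟩ : ∃ a : ℂ, a = ((Real.sqrt d : ℝ) : ℂ) * Complex.I := ⟨_, rfl⟩
  have haa : a * a = -(d : ℂ) := by
    rw [ha]
    have h1 : ((Real.sqrt d : ℝ) : ℂ) * ((Real.sqrt d : ℝ) : ℂ) = (d : ℂ) := by
      rw [← Complex.ofReal_mul, Real.mul_self_sqrt (Nat.cast_nonneg d)]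
      push_cast
      rfl
    linear_combination (Complex.I * Complex.I) * h1 + (d : ℂ) * Complex.I_mul_I
  have ha0 : a ≠ 0 := by
    rintro h0
    rw [h0, mul_zero] at haa
    have : (d : ℂ) = 0 := by linear_combination haa
    have h2 : d = 0 := by exact_mod_cast this
    omega
  obtain ⟨μ, hμdef⟩ : ∃ μ : ℂ, μ = a / m := ⟨_, rfl⟩
  have hmμ : (m : ℂ) * μ = a := by rw [hμdef]; field_simp
  have hμ0 : μ ≠ 0 := by
    rintro h0
    rw [h0, mul_zero] at hmμ
    exact ha0 hmμ.symm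
  have hμμ : μ * μ = -(d' : ℂ) := by
    have h1 : ((m : ℂ) * m) * (μ * μ) = ((m : ℂ) * m) * (-(d' : ℂ)) := by
      have h2 : ((m : ℂ) * m) * (μ * μ) = (m * μ) * (m * μ) := by ring
      rw [h2, hmμ, haa, ← hmd]
      push_cast
      ring
    exact mul_left_cancel₀ (mul_ne_zero hmC hmC) h1
  have hPP : P * P = (μ * μ) • (1 : Matrix (Fin g ⊕ Fin g) (Fin g ⊕ Fin g) ℂ) := by
    rw [hPdef, ← cK_mul, hsq, cK_neg, cK_smul, cK_one, hμμ, neg_smul]
    push_cast
    rfl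
  -- the dimensions
  have hp' : finrank ℂ (US P (DZ Z) μ 1) = p := by
    rw [finrank_US S hY hD hmC hμ0 hP hPP hcom, hmμ, ha]
    exact hp
  have hq' : finrank ℂ (US P (DZ Z) (-μ) (- -1)) = q := by
    rw [neg_neg, finrank_US S hY hD hmC (neg_ne_zero.2 hμ0) hP (by rw [neg_mul_neg]; exact hPP) hcom,
      mul_neg, hmμ, neg_smul, sub_neg_eq_add, ha]
    exact hq
  have hDD : ∀ t, D (D t) = (a * a) • t := by
    intro t
    have hE := endo_PZ hEnd
    have hM : S.tmat D * S.tmat D = (a * a) • (1 : Matrix (Fin g) (Fin g) ℂ) := by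
      have h1 : S.tmat D * S.tmat D = S.tmat D * (S.tmat D * PZ Z) * r10 g := by
        rw [← Matrix.mul_assoc, Matrix.mul_assoc (S.tmat D * S.tmat D), PZ_r10, Matrix.mul_one]
      have h2 : cq ψ * cq ψ = (a * a) • (1 : Matrix (Fin g ⊕ Fin g) (Fin g ⊕ Fin g) ℂ) := by
        have h3 : cq ψ = (m : ℂ) • P := hP
        rw [h3, smul_mul_smul_comm, hPP, smul_smul]
        congr 1
        rw [← hmμ]
        ring
      have hE' : PZ Z * cq ψ = S.tmat D * PZ Z := hE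
      rw [h1, ← hE', ← Matrix.mul_assoc, ← hE', Matrix.mul_assoc (PZ Z), h2, Matrix.mul_smul,
        Matrix.mul_one, Matrix.smul_mul, PZ_r10]
    apply S.C.injective
    have h3 := S.tmat_mulVec D (S.C t)
    have h4 := S.tmat_mulVec D (S.C (D t))
    rw [LinearEquiv.symm_apply_apply] at h3 h4
    rw [← h4, ← h3, mulVec_mulVec, hM, smul_mulVec, one_mulVec, map_smul]
  have hg : g = p + q := by
    have h1 := finrank_two D a ha0 hDD
    rw [ha, hp, hq, S.C.finrank_eq, finrank_fin_fun] at h1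
    exact h1.symm
  -- the dual bases
  obtain ⟨-, hx1⟩ := perfect (g := g) (A := P) (D := DZ Z) (l := μ) (e := 1) hμ0 hPP
    (one_mul 1) (DZ_sq hY) hcom hskewC (DZ_skew hZ)
  obtain ⟨hdim2, hx2⟩ := perfect (g := g) (A := P) (D := DZ Z) (l := μ) (e := -1) hμ0
    hPP (by norm_num) (DZ_sq hY) hcom hskewC (DZ_skew hZ)
  rw [hq'] at hdim2
  rw [hp'] at hx1
  rw [hdim2] at hx2
  obtain ⟨u1, v1, hu1, hv1, huv1⟩ := hx1
  obtain ⟨u2, v2, hu2, hv2, huv2⟩ := hx2
  obtain ⟨E⟩ : Nonempty (Fin g ≃ Fin p ⊕ Fin q) := ⟨(finCongr hg).trans finSumFinEquiv.symm⟩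
  have hcross1 : ∀ k l, BB g (u1 k) (v2 l) = 0 := by
    intro k l
    have h1 := (pair_zero hskewC (DZ_skew hZ) (hu1 k) (hv2 l)).2
    exact (mul_eq_zero.1 h1).resolve_left (by norm_num)
  have hcross2 : ∀ k l, BB g (u2 k) (v1 l) = 0 := by
    intro k l
    have h1 := (pair_zero hskewC (DZ_skew hZ) (hu2 k) (hv1 l)).2
    exact (mul_eq_zero.1 h1).resolve_left (by norm_num)
  have hcount : ∀ (c : ℤ) (F : Fin p ⊕ Fin q → ℤ), (Finset.univ.filter fun k => F (E k) = c).card =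
      (∑ i : Fin p, if F (Sum.inl i) = c then 1 else 0) +
        ∑ i : Fin q, if F (Sum.inr i) = c then 1 else 0 := by
    intro c F
    rw [Finset.card_filter, Equiv.sum_comp E (fun s => if F s = c then 1 else 0),
      Fintype.sum_sum_type]
  refine ⟨{
    φ := φ'
    d := d'
    hd := hsf
    sq := hsq
    com := hcomK
    skew := hskew
    gen := hgen'
    μ := μ
    hμ := hμμ
    u := fun k => Sum.elim u1 u2 (E k)
    v := fun k => Sum.elim v1 v2 (E k)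
    hu := ?_
    hv := ?_
    dual := ?_
    ep := fun k => Sum.elim (fun _ => 1) (fun _ => -1) (E k)
    hep := ?_
    hDu := ?_
    hDv := ?_ }, ?_, ?_⟩
  · intro k
    rw [← hPdef]
    rcases E k with i | i
    · exact (hu1 i).1
    · exact (hu2 i).1
  · intro k
    rw [← hPdef]
    rcases E k with i | i
    · exact (hv1 i).1
    · exact (hv2 i).1
  · intro k l
    rw [← BB_apply]
    have hkl : (k = l) ↔ (E k = E l) := E.injective.eq_iff.symm
    simp only [hkl]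
    rcases E k with i | i <;> rcases E l with j | j
    · simp only [Sum.elim_inl, Sum.inl.injEq]
      exact huv1 i j
    · simp only [Sum.elim_inl, Sum.elim_inr, reduceCtorEq, if_false]
      exact hcross1 i j
    · simp only [Sum.elim_inl, Sum.elim_inr, reduceCtorEq, if_false]
      exact hcross2 i j
    · simp only [Sum.elim_inr, Sum.inr.injEq]
      exact huv2 i j
  · intro k
    rcases E k with i | i
    · exact Or.inl rfl
    · exact Or.inr rfl
  · intro k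
    rcases E k with i | i
    · have := (hu1 i).2
      simpa using this
    · have := (hu2 i).2
      simpa using this
  · intro k
    rcases E k with i | i
    · have := (hv1 i).2
      simpa using this
    · have := (hv2 i).2
      simpa using this
  · unfold UZ.pos
    have h1 := hcount 1 (Sum.elim (fun _ => 1) (fun _ => -1))
    simp only [Sum.elim_inl, Sum.elim_inr, if_true, Finset.sum_const, Finset.card_univ,
      Fintype.card_fin, smul_eq_mul, mul_one] at h1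
    rw [h1]
    simp
  · unfold UZ.neg
    have h1 := hcount (-1) (Sum.elim (fun _ => 1) (fun _ => -1))
    simp only [Sum.elim_inl, Sum.elim_inr, if_true, Finset.sum_const, Finset.card_univ,
      Fintype.card_fin, smul_eq_mul, mul_one] at h1
    rw [h1]
    simp

end Pool.Agent.Q121.WT
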